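import Pool.Agent.Helper15.CG.LEVa

/-!
# Levi reduction (row LEV of cg_mods)
-/

set_option linter.unusedSectionVars false

namespace Pool.Agent.Helper97.CG

open MvPolynomial Matrix Pool.Agent.Helper14.RG

universe u

section Lev

variable {k : Type u} [Field k] [IsAlgClosed k] [CharZero k] {e : ℕ} {w : Type} [Fintype w]
  [DecidableEq w] {ε : k} {d : Bool} {Jw : Matrix w w k}

/-- the matrix of an isometry -/
abbrev mt (x : IsoG (LJ (Fin e) ε Jw)) :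
    Matrix (Fin e ⊕ (Fin e ⊕ w)) (Fin e ⊕ (Fin e ⊕ w)) k := isoHom (LJ (Fin e) ε Jw) x

lemma mt_iso (x : IsoG (LJ (Fin e) ε Jw)) : (mt x)ᵀ * LJ (Fin e) ε Jw * mt x = LJ (Fin e) ε Jw :=
  x.2

lemma mt_det (x : IsoG (LJ (Fin e) ε Jw)) : (mt x).det = 1 := x.1.2

lemma mt_mul (x y : IsoG (LJ (Fin e) ε Jw)) : mt (x * y) = mt x * mt y := rfl

lemma mt_inj {x y : IsoG (LJ (Fin e) ε Jw)} (h : mt x = mt y) : x = y :=
  Subtype.ext (Subtype.ext h)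

open scoped Classical in
/-- the Levi component -/
noncomputable def Psi (hF : ST_LEVF k) (hJ : IsForm ε Jw) (x : IsoG (LJ (Fin e) ε Jw)) :
    GL (Fin e) k × IsoG Jw :=
  if h : (b11 (mt x)).det ≠ 0 then
    (Matrix.GeneralLinearGroup.mkOfDetNeZero (b11 (mt x)) h,
      ⟨⟨lY (mt x), (hF e w ε Jw hJ (mt x) (mt_iso x) h).2.2.2.2.symm.trans (mt_det x)⟩,
        (hF e w ε Jw hJ (mt x) (mt_iso x) h).2.1⟩)
  else 1

lemma Psi_fst (hF : ST_LEVF k) (hJ : IsForm ε Jw) (x : IsoG (LJ (Fin e) ε Jw))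
    (h : (b11 (mt x)).det ≠ 0) : glHom (Fin e) k (Psi hF hJ x).1 = b11 (mt x) := by
  rw [Psi, dif_pos h]
  rfl

lemma Psi_snd (hF : ST_LEVF k) (hJ : IsForm ε Jw) (x : IsoG (LJ (Fin e) ε Jw))
    (h : (b11 (mt x)).det ≠ 0) : isoHom Jw (Psi hF hJ x).2 = lY (mt x) := by
  rw [Psi, dif_pos h]
  rfl

lemma L_ext {g g' : GL (Fin e) k × IsoG Jw} (h1 : glHom (Fin e) k g.1 = glHom (Fin e) k g'.1)
    (h2 : isoHom Jw g.2 = isoHom Jw g'.2) : g = g' := by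
  refine Prod.ext (Units.ext h1) ?_
  exact Subtype.ext (Subtype.ext h2)

/-- the base coordinates -/
noncomputable def ub (d : Bool) (Jw : Matrix w w k) (ε : k)
    (y : Matrix (Fin e ⊕ (Fin e ⊕ w)) (Fin e ⊕ (Fin e ⊕ w)) k) :
    ((w × Fin e) ⊕ KI e d) ⊕ ((w × Fin e) ⊕ KI e d) → k :=
  Sum.elim
    (Sum.elim (fun p => lC y p.1 p.2)
      (fun p => (lA y + (2⁻¹ : k) • ((lC y)ᵀ * Jw * lC y)) p.1.1 p.1.2))
    (Sum.elim (fun p => lD y p.1 p.2)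
      (fun p => (lB y + (2⁻¹ * ε : k) • ((lD y)ᵀ * Jw * lD y)) p.1.1 p.1.2))

lemma ub_mul_dg (y : Matrix (Fin e ⊕ (Fin e ⊕ w)) (Fin e ⊕ (Fin e ⊕ w)) k)
    {h1 h2 : Matrix (Fin e) (Fin e) k} (h3 : Matrix w w k) (hd : h1.det ≠ 0)
    (hh : h2 * h1ᵀ = 1) : ub d Jw ε (y * dg h1 h2 h3) = ub d Jw ε y := by
  rw [ub, lC_mul_dg y h2 h3 hd, lA_mul_dg y h2 h3 hd, lD_mul_dg y h3 hd hh, lB_mul_dg y h3 hh]
  rfl

/-- what is needed of an element which commutes with `s` up to sign -/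
lemma blk_of (hJ : IsForm ε Jw) (x : IsoG (LJ (Fin e) ε Jw))
    (h : b12 (mt x) = 0 ∧ b13 (mt x) = 0 ∧ b21 (mt x) = 0 ∧ b23 (mt x) = 0 ∧
      b31 (mt x) = 0 ∧ b32 (mt x) = 0) :
    ∃ g : GL (Fin e) k × IsoG Jw, ∃ h2 : Matrix (Fin e) (Fin e) k,
      mt x = dg (glHom (Fin e) k g.1) h2 (isoHom Jw g.2) ∧
      h2 * (glHom (Fin e) k g.1)ᵀ = 1 ∧ (glHom (Fin e) k g.1).det ≠ 0 := by
  obtain ⟨e12, e13, e21, e23, e31, e32⟩ := h
  have hx : mt x = dg (b11 (mt x)) (b22 (mt x)) (b33 (mt x)) := by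
    have h := mk3_eta (mt x)
    rw [e12, e13, e21, e23, e31, e32] at h
    exact h.symm
  have hi := mt_iso x
  rw [hx] at hi
  obtain ⟨r1, r2⟩ := dg_iso hi
  have hd : (b11 (mt x)).det * (b22 (mt x)).det = 1 := by
    have := congrArg Matrix.det r1
    rw [Matrix.det_mul, Matrix.det_transpose, Matrix.det_one] at this
    exact this
  have hd1 : (b11 (mt x)).det ≠ 0 := left_ne_zero_of_mul (hd.symm ▸ one_ne_zero)
  have hd3 : (b33 (mt x)).det = 1 := by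
    have h1 := mt_det x
    rw [hx, det_dg, ← mul_assoc, hd, one_mul] at h1
    exact h1
  refine ⟨(Matrix.GeneralLinearGroup.mkOfDetNeZero (b11 (mt x)) hd1,
    ⟨⟨b33 (mt x), hd3⟩, r2⟩), b22 (mt x), hx, ?_, hd1⟩
  show b22 (mt x) * (b11 (mt x))ᵀ = 1
  exact mul_eq_one_comm.1 r1

lemma Psi_mul (hF : ST_LEVF k) (hJ : IsForm ε Jw) (x h : IsoG (LJ (Fin e) ε Jw))
    (hx : (b11 (mt x)).det ≠ 0) (g : GL (Fin e) k × IsoG Jw) (h2 : Matrix (Fin e) (Fin e) k)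
    (hh : mt h = dg (glHom (Fin e) k g.1) h2 (isoHom Jw g.2))
    (hd : (glHom (Fin e) k g.1).det ≠ 0) :
    (b11 (mt (x * h))).det ≠ 0 ∧ Psi hF hJ (x * h) = Psi hF hJ x * g := by
  have h0 : (b11 (mt (x * h))).det ≠ 0 := by
    rw [mt_mul, hh, b11_mul_dg, Matrix.det_mul]
    exact mul_ne_zero hx hd
  refine ⟨h0, L_ext ?_ ?_⟩
  · rw [Psi_fst hF hJ _ h0, Prod.fst_mul, map_mul, Psi_fst hF hJ _ hx, mt_mul, hh, b11_mul_dg]
  · rw [Psi_snd hF hJ _ h0, Prod.snd_mul, map_mul, Psi_snd hF hJ _ hx, mt_mul, hh,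
      lY_mul_dg _ _ _ hd]

lemma cmm_blk {sE h1 h2 : Matrix (Fin e) (Fin e) k} {sw h3 : Matrix w w k}
    (h : dg sE (sEᵀ)⁻¹ sw * dg h1 h2 h3 = -(dg h1 h2 h3 * dg sE (sEᵀ)⁻¹ sw)) :
    fromBlocks sE 0 0 sw * fromBlocks h1 0 0 h3 =
      -(fromBlocks h1 0 0 h3 * fromBlocks sE 0 0 sw) := by
  rw [dg_mul_dg, dg_mul_dg, dg, dg, mk3_neg] at h
  have h' := mk3_inj h
  rw [Matrix.fromBlocks_multiply, Matrix.fromBlocks_multiply, Matrix.fromBlocks_neg]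
  simp only [Matrix.mul_zero, Matrix.zero_mul, add_zero, zero_add, neg_zero]
  rw [h'.1.1, h'.2.2.2.2]

lemma cm_blk {sE h1 h2 : Matrix (Fin e) (Fin e) k} {sw h3 : Matrix w w k}
    (h : dg sE (sEᵀ)⁻¹ sw * dg h1 h2 h3 = dg h1 h2 h3 * dg sE (sEᵀ)⁻¹ sw) :
    fromBlocks sE 0 0 sw * fromBlocks h1 0 0 h3 =
      fromBlocks h1 0 0 h3 * fromBlocks sE 0 0 sw := by
  rw [dg_mul_dg, dg_mul_dg, dg, dg] at h
  have h' := mk3_inj h
  rw [Matrix.fromBlocks_multiply, Matrix.fromBlocks_multiply]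
  simp only [Matrix.mul_zero, Matrix.zero_mul, add_zero, zero_add]
  rw [h'.1.1, h'.2.2.2.2]

lemma blk_cm {sE h1 : Matrix (Fin e) (Fin e) k} {sw h3 : Matrix w w k}
    (h : fromBlocks sE 0 0 sw * fromBlocks h1 0 0 h3 =
      fromBlocks h1 0 0 h3 * fromBlocks sE 0 0 sw) :
    dg sE (sEᵀ)⁻¹ sw * dg h1 (h1ᵀ)⁻¹ h3 = dg h1 (h1ᵀ)⁻¹ h3 * dg sE (sEᵀ)⁻¹ sw := by
  rw [Matrix.fromBlocks_multiply, Matrix.fromBlocks_multiply] at h
  simp only [Matrix.mul_zero, Matrix.zero_mul, add_zero, zero_add] at h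
  rw [Matrix.fromBlocks_inj] at h
  rw [dg_mul_dg, dg_mul_dg, h.1, h.2.2.2, ← Matrix.mul_inv_rev, ← Matrix.mul_inv_rev,
    ← Matrix.transpose_mul, ← Matrix.transpose_mul, h.1]

/-- entries of the blocks are regular -/
lemma RM_mt : RM (mAlg (isoHom (LJ (Fin e) ε Jw))) (fun x => mt x) :=
  fun i j => Algebra.subset_adjoin ⟨i, j, rfl⟩

/-- the open set -/
noncomputable def qq (x : IsoG (LJ (Fin e) ε Jw)) : k := (b11 (mt x)).det

lemma qq_mem : (qq : IsoG (LJ (Fin e) ε Jw) → k) ∈ mAlg (isoHom (LJ (Fin e) ε Jw)) :=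
  det_mem_alg _ (fun x => b11 (mt x)) fun _ _ => RM_mt _ _

section Regular

variable {q1 : IsoG (LJ (Fin e) ε Jw) → k} (hq : ∀ g, q1 g ≠ 0 → (b11 (mt g)).det ≠ 0)

include hq

lemma RM_b {a b : Type} {M : IsoG (LJ (Fin e) ε Jw) → Matrix a b k}
    (h : RM (mAlg (isoHom (LJ (Fin e) ε Jw))) M) :
    RM (RegU (mAlg (isoHom (LJ (Fin e) ε Jw))) q1) M := fun i j => le_RegU _ _ (h i j)

lemma RM_inv : RM (RegU (mAlg (isoHom (LJ (Fin e) ε Jw))) q1) (fun x => (b11 (mt x))⁻¹) :=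
  fun i j => nonsing_inv_mem_RegU (fun x => b11 (mt x))
    (fun _ _ => le_RegU _ _ (RM_mt _ _)) hq i j

lemma RM_lC : RM (RegU (mAlg (isoHom (LJ (Fin e) ε Jw))) q1) (fun x => lC (mt x)) :=
  RM.mul (M := fun x => b31 (mt x)) (fun _ _ => le_RegU _ _ (RM_mt _ _)) (RM_inv hq)

lemma RM_lA : RM (RegU (mAlg (isoHom (LJ (Fin e) ε Jw))) q1) (fun x => lA (mt x)) :=
  RM.mul (M := fun x => b21 (mt x)) (fun _ _ => le_RegU _ _ (RM_mt _ _)) (RM_inv hq)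

lemma RM_lY : RM (RegU (mAlg (isoHom (LJ (Fin e) ε Jw))) q1) (fun x => lY (mt x)) :=
  RM.sub (M := fun x => b33 (mt x)) (fun _ _ => le_RegU _ _ (RM_mt _ _))
    (RM.mul (RM_lC hq) (N := fun x => b13 (mt x)) (fun _ _ => le_RegU _ _ (RM_mt _ _)))

lemma RM_b11t : RM (RegU (mAlg (isoHom (LJ (Fin e) ε Jw))) q1) (fun x => (b11 (mt x))ᵀ) :=
  RM.transpose (M := fun x => b11 (mt x)) (fun _ _ => le_RegU _ _ (RM_mt _ _))

lemma RM_lB : RM (RegU (mAlg (isoHom (LJ (Fin e) ε Jw))) q1) (fun x => lB (mt x)) :=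
  RM.mul (M := fun x => b12 (mt x)) (fun _ _ => le_RegU _ _ (RM_mt _ _)) (RM_b11t hq)

lemma RM_lD : RM (RegU (mAlg (isoHom (LJ (Fin e) ε Jw))) q1) (fun x => lD (mt x)) :=
  RM.mul (RM.sub (M := fun x => b32 (mt x)) (fun _ _ => le_RegU _ _ (RM_mt _ _))
    (RM.mul (RM_lC hq) (N := fun x => b12 (mt x)) (fun _ _ => le_RegU _ _ (RM_mt _ _))))
    (RM_b11t hq)

lemma ub_reg (j : ((w × Fin e) ⊕ KI e d) ⊕ ((w × Fin e) ⊕ KI e d)) :
    (fun x => ub d Jw ε (mt x) j) ∈ RegU (mAlg (isoHom (LJ (Fin e) ε Jw))) q1 := by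
  rcases j with (p | p) | (p | p)
  · exact RM_lC hq p.1 p.2
  · exact RM.add (RM_lA hq) (RM.smul _ (RM.mul (RM.mul (RM.transpose (RM_lC hq)) (RM.const Jw))
      (RM_lC hq))) p.1.1 p.1.2
  · exact RM_lD hq p.1 p.2
  · exact RM.add (RM_lB hq) (RM.smul _ (RM.mul (RM.mul (RM.transpose (RM_lD hq)) (RM.const Jw))
      (RM_lD hq))) p.1.1 p.1.2

lemma Psi_reg (hF : ST_LEVF k) (hJ : IsForm ε Jw) :
    ∀ f ∈ {f : GL (Fin e) k × IsoG Jw → k | ∃ i j, f = fun g =>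
      pHom (glHom (Fin e) k) (isoHom Jw) g i j},
      (fun g => f (Psi hF hJ g)) ∈ RegU (mAlg (isoHom (LJ (Fin e) ε Jw))) q1 := by
  rintro f ⟨i, j, rfl⟩
  have h1 : ∀ g, q1 g ≠ 0 → fromBlocks (b11 (mt g)) 0 0 (lY (mt g)) i j =
      pHom (glHom (Fin e) k) (isoHom Jw) (Psi hF hJ g) i j := by
    intro g hg
    show _ = fromBlocks (glHom (Fin e) k (Psi hF hJ g).1) 0 0 (isoHom Jw (Psi hF hJ g).2) i j
    rw [Psi_fst hF hJ g (hq g hg), Psi_snd hF hJ g (hq g hg)]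
  refine RegU_congr h1 ?_
  rcases i with i | i <;> rcases j with j | j
  · exact le_RegU _ _ (RM_mt _ _)
  · exact Subalgebra.algebraMap_mem _ (0 : k)
  · exact Subalgebra.algebraMap_mem _ (0 : k)
  · exact RM_lY hq i j

end Regular

/-- existence of the element with given coordinates -/
lemma exists_pt (hF : ST_LEVF k) (hC : ST_LEVC k) (hs : IsSg ε d) (hJ : IsForm ε Jw)
    (z : ((w × Fin e) ⊕ KI e d) ⊕ ((w × Fin e) ⊕ KI e d) → k) (g : GL (Fin e) k × IsoG Jw) :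
    ∃ x : IsoG (LJ (Fin e) ε Jw), (b11 (mt x)).det ≠ 0 ∧ ub d Jw ε (mt x) = z ∧
      Psi hF hJ x = g := by
  have hε := hs.sq
  have hdet : (glHom (Fin e) k g.1).det ≠ 0 := by
    have h1 : glHom (Fin e) k g.1 * glHom (Fin e) k g.1⁻¹ = 1 := by
      rw [← map_mul, mul_inv_cancel, map_one]
    have h2 := congrArg Matrix.det h1
    rw [Matrix.det_mul, Matrix.det_one] at h2
    exact left_ne_zero_of_mul (h2.symm ▸ one_ne_zero)
  obtain ⟨y, c1, c2, c3, c4, c5, c6, c7, c8⟩ : ∃ y : Matrix (Fin e ⊕ (Fin e ⊕ w))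
      (Fin e ⊕ (Fin e ⊕ w)) k, yᵀ * LJ (Fin e) ε Jw * y = LJ (Fin e) ε Jw ∧
      y.det = (isoHom Jw g.2).det ∧ b11 y = glHom (Fin e) k g.1 ∧
      lA y = skw ε (fun p : KI e d => z (Sum.inl (Sum.inr p))) - (2⁻¹ : k) •
      ((Matrix.of fun i j => z (Sum.inl (Sum.inl (i, j))) : Matrix w (Fin e) k)ᵀ * Jw *
        (Matrix.of fun i j => z (Sum.inl (Sum.inl (i, j))) : Matrix w (Fin e) k)) ∧
      lC y = (Matrix.of fun i j => z (Sum.inl (Sum.inl (i, j))) : Matrix w (Fin e) k) ∧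
      lY y = isoHom Jw g.2 ∧
      lB y = skw ε (fun p : KI e d => z (Sum.inr (Sum.inr p))) - (2⁻¹ * ε : k) •
      ((Matrix.of fun i j => z (Sum.inr (Sum.inl (i, j))) : Matrix w (Fin e) k)ᵀ * Jw *
        (Matrix.of fun i j => z (Sum.inr (Sum.inl (i, j))) : Matrix w (Fin e) k)) ∧
      lD y = (Matrix.of fun i j => z (Sum.inr (Sum.inl (i, j))) : Matrix w (Fin e) k) :=
    ⟨_, hC e w ε Jw hJ _ _ (glHom (Fin e) k g.1) _ _ (isoHom Jw g.2)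
      (rel_of_K hJ hε (skw_transpose hs _) _) (rel_of_K' hJ hε (skw_transpose hs _) _) hdet
      g.2.2 _ rfl⟩
  have hdY : (isoHom Jw g.2).det = 1 := g.2.1.2
  obtain ⟨x, hx⟩ : ∃ x : IsoG (LJ (Fin e) ε Jw), mt x = y := ⟨⟨⟨y, c2.trans hdY⟩, c1⟩, rfl⟩
  have hdx : (b11 (mt x)).det ≠ 0 := by
    rw [hx, c3]
    exact hdet
  refine ⟨x, hdx, ?_, L_ext ?_ ?_⟩
  · rw [hx]
    funext j
    rcases j with (p | p) | (p | p)
    · show lC y p.1 p.2 = _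
      rw [c5]
      rfl
    · show (lA y + (2⁻¹ : k) • ((lC y)ᵀ * Jw * lC y)) p.1.1 p.1.2 = _
      rw [c4, c5, sub_add_cancel, skw_free]
    · show lD y p.1 p.2 = _
      rw [c8]
      rfl
    · show (lB y + (2⁻¹ * ε : k) • ((lD y)ᵀ * Jw * lD y)) p.1.1 p.1.2 = _
      rw [c7, c8, sub_add_cancel, skw_free]
  · rw [Psi_fst hF hJ x hdx, hx, c3]
  · rw [Psi_snd hF hJ x hdx, hx, c6]

/-- equal coordinates -/
lemma coord_eq (hF : ST_LEVF k) (hs : IsSg ε d) (hJ : IsForm ε Jw)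
    (x x' : IsoG (LJ (Fin e) ε Jw)) (hx : (b11 (mt x)).det ≠ 0) (hx' : (b11 (mt x')).det ≠ 0)
    (hu : ub d Jw ε (mt x) = ub d Jw ε (mt x')) (g : GL (Fin e) k × IsoG Jw)
    (hg : Psi hF hJ x' = Psi hF hJ x * g) :
    mt x' = mt x * dg (glHom (Fin e) k g.1) ((glHom (Fin e) k g.1)ᵀ)⁻¹ (isoHom Jw g.2) := by
  have hε := hs.sq
  obtain ⟨f1, f2, f3, f4, f5⟩ := hF e w ε Jw hJ (mt x) (mt_iso x) hx
  obtain ⟨f1', f2', f3', f4', f5'⟩ := hF e w ε Jw hJ (mt x') (mt_iso x') hx'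
  have eC : lC (mt x') = lC (mt x) := by
    ext i j
    exact (congrFun hu (Sum.inl (Sum.inl (i, j)))).symm
  have eD : lD (mt x') = lD (mt x) := by
    ext i j
    exact (congrFun hu (Sum.inr (Sum.inl (i, j)))).symm
  have eK : lA (mt x') + (2⁻¹ : k) • ((lC (mt x'))ᵀ * Jw * lC (mt x')) =
      lA (mt x) + (2⁻¹ : k) • ((lC (mt x))ᵀ * Jw * lC (mt x)) := by
    rw [← skw_of hs (K_tr hJ hε f1), ← skw_of hs (K_tr hJ hε f1')]
    congr 1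
    funext p
    exact (congrFun hu (Sum.inl (Sum.inr p))).symm
  have eA : lA (mt x') = lA (mt x) := by
    rw [eC] at eK
    exact add_right_cancel eK
  have eK' : lB (mt x') + (2⁻¹ * ε : k) • ((lD (mt x'))ᵀ * Jw * lD (mt x')) =
      lB (mt x) + (2⁻¹ * ε : k) • ((lD (mt x))ᵀ * Jw * lD (mt x)) := by
    have g3 : lB (mt x) + ε • (lB (mt x))ᵀ + ε • ((lD (mt x))ᵀ * Jw * lD (mt x)) = 0 := f3
    have g3' : lB (mt x') + ε • (lB (mt x'))ᵀ + ε • ((lD (mt x'))ᵀ * Jw * lD (mt x')) = 0 := f3'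
    rw [← skw_of hs (K_tr' hJ hε g3), ← skw_of hs (K_tr' hJ hε g3')]
    congr 1
    funext p
    exact (congrFun hu (Sum.inr (Sum.inr p))).symm
  have eB : lB (mt x') = lB (mt x) := by
    rw [eD] at eK'
    exact add_right_cancel eK'
  have e1 : b11 (mt x') = b11 (mt x) * glHom (Fin e) k g.1 := by
    rw [← Psi_fst hF hJ x' hx', hg, Prod.fst_mul, map_mul, Psi_fst hF hJ x hx]
  have e3 : lY (mt x') = lY (mt x) * isoHom Jw g.2 := by
    rw [← Psi_snd hF hJ x' hx', hg, Prod.snd_mul, map_mul, Psi_snd hF hJ x hx]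
  have g4 : mt x = nLow Jw (lA (mt x)) (lC (mt x)) * nUp ε Jw (lB (mt x)) (lD (mt x)) *
    dg (b11 (mt x)) ((b11 (mt x))ᵀ)⁻¹ (lY (mt x)) := f4
  have g4' : mt x' = nLow Jw (lA (mt x')) (lC (mt x')) * nUp ε Jw (lB (mt x')) (lD (mt x')) *
    dg (b11 (mt x')) ((b11 (mt x'))ᵀ)⁻¹ (lY (mt x')) := f4'
  rw [eA, eC, eB, eD, e1, e3] at g4'
  rw [g4', Matrix.transpose_mul, Matrix.mul_inv_rev]
  calc nLow Jw (lA (mt x)) (lC (mt x)) * nUp ε Jw (lB (mt x)) (lD (mt x)) *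
        dg (b11 (mt x) * glHom (Fin e) k g.1) (((b11 (mt x))ᵀ)⁻¹ * ((glHom (Fin e) k g.1)ᵀ)⁻¹)
          (lY (mt x) * isoHom Jw g.2)
      = nLow Jw (lA (mt x)) (lC (mt x)) * nUp ε Jw (lB (mt x)) (lD (mt x)) *
        dg (b11 (mt x)) ((b11 (mt x))ᵀ)⁻¹ (lY (mt x)) *
          dg (glHom (Fin e) k g.1) ((glHom (Fin e) k g.1)ᵀ)⁻¹ (isoHom Jw g.2) := by
        rw [Matrix.mul_assoc _ (dg (b11 (mt x)) _ _), dg_mul_dg]
    _ = _ := by rw [← g4]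

end Lev

/-- Levi reduction -/
theorem st_LEV {k : Type u} [Field k] [IsAlgClosed k] [CharZero k] (hF : ST_LEVF k)
    (hC : ST_LEVC k) : ST_LEV k := by
  intro e w _ _ ε d Jw hs hJ sE sw hsE hsw hblk hL
  obtain ⟨NL, hNL, hDL, ⟨ch⟩⟩ := hL
  obtain ⟨q1, hq1, hq1'⟩ := exists_refine (A := mAlg (isoHom (LJ (Fin e) ε Jw))) (q0 := qq)
    (f := fun g => ch.q0 (Psi hF hJ g)) qq_mem
    (comp_mem_RegU rfl (Psi hF hJ) (Psi_reg (q1 := qq) (fun g hg => hg) hF hJ) ch.q0_mem)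
  have hq : ∀ g, q1 g ≠ 0 → (b11 (mt g)).det ≠ 0 := fun g hg => ((hq1' g).1 hg).1
  have hqL : ∀ g, q1 g ≠ 0 → ch.q0 (Psi hF hJ g) ≠ 0 := fun g hg => ((hq1' g).1 hg).2
  -- elements commuting up to sign
  have hB : ∀ h ∈ cmm (isoHom (LJ (Fin e) ε Jw)) (dg sE (sEᵀ)⁻¹ sw),
      ∃ g : GL (Fin e) k × IsoG Jw, ∃ h2 : Matrix (Fin e) (Fin e) k,
      mt h = dg (glHom (Fin e) k g.1) h2 (isoHom Jw g.2) ∧
      h2 * (glHom (Fin e) k g.1)ᵀ = 1 ∧ (glHom (Fin e) k g.1).det ≠ 0 := fun h hh =>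
    blk_of hJ h (hblk h hh)
  have hdom : ∀ P : MvPolynomial ((((w × Fin e) ⊕ KI e d) ⊕ ((w × Fin e) ⊕ KI e d)) ⊕ NL) k,
      P ≠ 0 → ∃ g, q1 g ≠ 0 ∧
        eval (Sum.elim (ub d Jw ε (mt g)) (ch.t (Psi hF hJ g))) P ≠ 0 := by
    intro P hP
    obtain ⟨z, hz⟩ := exists_special P hP
    obtain ⟨gL, hgL, hgL'⟩ := ch.dom _ hz
    obtain ⟨x, x1, x2, x3⟩ := exists_pt hF hC hs hJ z gL
    refine ⟨x, (hq1' x).2 ⟨x1, ?_⟩, ?_⟩
    · show ch.q0 (Psi hF hJ x) ≠ 0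
      rw [x3]
      exact hgL
    · rw [x2, x3, ← eval_special]
      exact hgL'
  refine ⟨(((w × Fin e) ⊕ KI e d) ⊕ ((w × Fin e) ⊕ KI e d)) ⊕ NL, inferInstance, inferInstance,
    ⟨?_⟩⟩
  exact {
    hH := cm_le_cmm _ _
    q0 := q1
    q0_mem := hq1
    q0_ne := by
      obtain ⟨g, hg, _⟩ := hdom 1 one_ne_zero
      intro h0
      exact hg (congrFun h0 g)
    t := fun g => Sum.elim (ub d Jw ε (mt g)) (ch.t (Psi hF hJ g))
    treg := by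
      intro j
      rcases j with j | j
      · exact ub_reg hq j
      · exact comp_mem_RegU' rfl (Psi hF hJ) (Psi_reg hq hF hJ) hqL (ch.treg j)
    sep := by
      intro g g' hg hg' ht
      have hu : ub d Jw ε (mt g) = ub d Jw ε (mt g') := by
        funext j
        exact congrFun ht (Sum.inl j)
      have hv : ch.t (Psi hF hJ g) = ch.t (Psi hF hJ g') := by
        funext j
        exact congrFun ht (Sum.inr j)
      obtain ⟨hL, hhL, hhL'⟩ := ch.sep _ _ (hqL g hg) (hqL g' hg') hv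
      have h1 := coord_eq hF hs hJ g g' (hq g hg) (hq g' hg') hu hL hhL'
      have h2 : mt (g⁻¹ * g') = dg (glHom (Fin e) k hL.1) ((glHom (Fin e) k hL.1)ᵀ)⁻¹
          (isoHom Jw hL.2) := by
        rw [mt_mul, h1, ← Matrix.mul_assoc, ← mt_mul, inv_mul_cancel]
        show (1 : Matrix _ _ k) * _ = _
        rw [Matrix.one_mul]
      refine ⟨g⁻¹ * g', ?_, (mul_inv_cancel_left g g').symm⟩
      show dg sE (sEᵀ)⁻¹ sw * mt (g⁻¹ * g') = mt (g⁻¹ * g') * dg sE (sEᵀ)⁻¹ sw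
      rw [h2]
      exact blk_cm hhL
    dom := hdom
    inv := by
      intro h hh g hg j
      obtain ⟨gL, h2, e1, e2, e3⟩ := hB h (cm_le_cmm _ _ hh)
      obtain ⟨p1, p2⟩ := Psi_mul hF hJ g h (hq g hg) gL h2 e1 e3
      have hc : gL ∈ cm (pHom (glHom (Fin e) k) (isoHom Jw)) (fromBlocks sE 0 0 sw) := by
        have hh' : dg sE (sEᵀ)⁻¹ sw * mt h = mt h * dg sE (sEᵀ)⁻¹ sw := hh
        rw [e1] at hh'
        exact cm_blk hh'
      rcases j with j | j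
      · show ub d Jw ε (mt (g * h)) j = ub d Jw ε (mt g) j
        rw [mt_mul, e1, ub_mul_dg _ _ e3 e2]
      · show ch.t (Psi hF hJ (g * h)) j = ch.t (Psi hF hJ g) j
        rw [p2]
        exact ch.inv gL hc _ (hqL g hg) j
    equiv := by
      intro h hh
      obtain ⟨gL, h2, e1, e2, e3⟩ := hB h hh
      have hc : gL ∈ cmm (pHom (glHom (Fin e) k) (isoHom Jw)) (fromBlocks sE 0 0 sw) := by
        rcases hh with hh' | hh'
        · left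
          have hh2 : dg sE (sEᵀ)⁻¹ sw * mt h = mt h * dg sE (sEᵀ)⁻¹ sw := hh'
          rw [e1] at hh2
          exact cm_blk hh2
        · right
          have hh2 : dg sE (sEᵀ)⁻¹ sw * mt h = -(mt h * dg sE (sEᵀ)⁻¹ sw) := hh'
          rw [e1] at hh2
          exact cmm_blk hh2
      obtain ⟨ρ, hρ⟩ := ch.equiv gL hc
      refine ⟨fromBlocks 1 0 0 ρ, fun g hg => ?_⟩
      obtain ⟨p1, p2⟩ := Psi_mul hF hJ g h (hq g hg) gL h2 e1 e3
      obtain ⟨r1, r2⟩ := hρ _ (hqL g hg)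
      refine ⟨(hq1' _).2 ⟨p1, ?_⟩, ?_⟩
      · show ch.q0 (Psi hF hJ (g * h)) ≠ 0
        rw [p2]
        exact r1
      · intro j
        rw [Fintype.sum_sum_type]
        rcases j with j | j
        · show ub d Jw ε (mt (g * h)) j = _
          rw [mt_mul, e1, ub_mul_dg _ _ e3 e2]
          simp [Matrix.one_apply]
        · show ch.t (Psi hF hJ (g * h)) j = _
          rw [p2, r2 j]
          simp }

end Pool.Agent.Helper97.CG
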