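import Pool.Agent.Helper97.CG.Skw

/-!
# Levi reduction (row LEV of cg_mods): tools
-/

namespace Pool.Agent.Helper97.CG

open MvPolynomial Matrix Pool.Agent.Helper14.RG

universe u

section Reg

variable {k : Type*} [Field k] {X : Type*} {a b c : Type*}

/-- all entries lie in the subalgebra -/
def RM (B : Subalgebra k (X → k)) (M : X → Matrix a b k) : Prop :=
  ∀ i j, (fun g => M g i j) ∈ B

lemma RM.mul [Fintype b] {B : Subalgebra k (X → k)} {M : X → Matrix a b k} {N : X → Matrix b c k}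
    (hM : RM B M) (hN : RM B N) : RM B (fun g => M g * N g) := by
  intro i j
  have h : (fun g => (M g * N g) i j) = ∑ l, (fun g => M g i l) * (fun g => N g l j) := by
    funext g
    rw [Matrix.mul_apply, Finset.sum_apply]
    rfl
  rw [h]
  exact Subalgebra.sum_mem _ fun l _ => mul_mem (hM i l) (hN l j)

lemma RM.add {B : Subalgebra k (X → k)} {M N : X → Matrix a b k}
    (hM : RM B M) (hN : RM B N) : RM B (fun g => M g + N g) := by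
  intro i j
  exact add_mem (hM i j) (hN i j)

lemma RM.sub {B : Subalgebra k (X → k)} {M N : X → Matrix a b k}
    (hM : RM B M) (hN : RM B N) : RM B (fun g => M g - N g) := by
  intro i j
  exact sub_mem (hM i j) (hN i j)

lemma RM.transpose {B : Subalgebra k (X → k)} {M : X → Matrix a b k}
    (hM : RM B M) : RM B (fun g => (M g)ᵀ) := fun i j => hM j i

lemma RM.const {B : Subalgebra k (X → k)} (M : Matrix a b k) : RM B (fun _ : X => M) := by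
  intro i j
  exact Subalgebra.algebraMap_mem B (M i j)

lemma RM.smul {B : Subalgebra k (X → k)} {M : X → Matrix a b k} (r : k)
    (hM : RM B M) : RM B (fun g => r • M g) := by
  intro i j
  exact Subalgebra.smul_mem B (hM i j) r

lemma RegU_congr {A : Subalgebra k (X → k)} {q0 f f' : X → k} (h : ∀ g, q0 g ≠ 0 → f g = f' g)
    (hf : f ∈ RegU A q0) : f' ∈ RegU A q0 := by
  obtain ⟨p, hp, r, hr, h1⟩ := hf
  refine ⟨p, hp, r, hr, fun g hg => ?_⟩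
  rw [← h g hg]
  exact h1 g hg

end Reg

section Blk

variable {k : Type u} [Field k] {e : ℕ} {w : Type} [Fintype w] [DecidableEq w]

/-- the matrix `B` -/
def lB (y : Matrix (Fin e ⊕ (Fin e ⊕ w)) (Fin e ⊕ (Fin e ⊕ w)) k) : Matrix (Fin e) (Fin e) k :=
  b12 y * (b11 y)ᵀ

/-- the matrix `D` -/
noncomputable def lD (y : Matrix (Fin e ⊕ (Fin e ⊕ w)) (Fin e ⊕ (Fin e ⊕ w)) k) :
    Matrix w (Fin e) k :=
  (b32 y - lC y * b12 y) * (b11 y)ᵀ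

lemma mul_dg (y : Matrix (Fin e ⊕ (Fin e ⊕ w)) (Fin e ⊕ (Fin e ⊕ w)) k)
    (h1 h2 : Matrix (Fin e) (Fin e) k) (h3 : Matrix w w k) :
    y * dg h1 h2 h3 = mk3 (b11 y * h1) (b12 y * h2) (b13 y * h3) (b21 y * h1) (b22 y * h2)
      (b23 y * h3) (b31 y * h1) (b32 y * h2) (b33 y * h3) := by
  have h := mk3_mul (b11 y) (b12 y) (b13 y) (b21 y) (b22 y) (b23 y) (b31 y) (b32 y) (b33 y)
    h1 0 0 0 h2 0 0 0 h3
  rw [mk3_eta] at h
  rw [dg, h]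
  simp only [Matrix.mul_zero, add_zero, zero_add]

lemma b11_mul_dg (y : Matrix (Fin e ⊕ (Fin e ⊕ w)) (Fin e ⊕ (Fin e ⊕ w)) k)
    (h1 h2 : Matrix (Fin e) (Fin e) k) (h3 : Matrix w w k) :
    b11 (y * dg h1 h2 h3) = b11 y * h1 := by rw [mul_dg]; rfl
lemma b12_mul_dg (y : Matrix (Fin e ⊕ (Fin e ⊕ w)) (Fin e ⊕ (Fin e ⊕ w)) k)
    (h1 h2 : Matrix (Fin e) (Fin e) k) (h3 : Matrix w w k) :
    b12 (y * dg h1 h2 h3) = b12 y * h2 := by rw [mul_dg]; rfl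
lemma b13_mul_dg (y : Matrix (Fin e ⊕ (Fin e ⊕ w)) (Fin e ⊕ (Fin e ⊕ w)) k)
    (h1 h2 : Matrix (Fin e) (Fin e) k) (h3 : Matrix w w k) :
    b13 (y * dg h1 h2 h3) = b13 y * h3 := by rw [mul_dg]; rfl
lemma b21_mul_dg (y : Matrix (Fin e ⊕ (Fin e ⊕ w)) (Fin e ⊕ (Fin e ⊕ w)) k)
    (h1 h2 : Matrix (Fin e) (Fin e) k) (h3 : Matrix w w k) :
    b21 (y * dg h1 h2 h3) = b21 y * h1 := by rw [mul_dg]; rfl
lemma b31_mul_dg (y : Matrix (Fin e ⊕ (Fin e ⊕ w)) (Fin e ⊕ (Fin e ⊕ w)) k)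
    (h1 h2 : Matrix (Fin e) (Fin e) k) (h3 : Matrix w w k) :
    b31 (y * dg h1 h2 h3) = b31 y * h1 := by rw [mul_dg]; rfl
lemma b32_mul_dg (y : Matrix (Fin e ⊕ (Fin e ⊕ w)) (Fin e ⊕ (Fin e ⊕ w)) k)
    (h1 h2 : Matrix (Fin e) (Fin e) k) (h3 : Matrix w w k) :
    b32 (y * dg h1 h2 h3) = b32 y * h2 := by rw [mul_dg]; rfl
lemma b33_mul_dg (y : Matrix (Fin e ⊕ (Fin e ⊕ w)) (Fin e ⊕ (Fin e ⊕ w)) k)
    (h1 h2 : Matrix (Fin e) (Fin e) k) (h3 : Matrix w w k) :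
    b33 (y * dg h1 h2 h3) = b33 y * h3 := by rw [mul_dg]; rfl

lemma lC_mul_dg (y : Matrix (Fin e ⊕ (Fin e ⊕ w)) (Fin e ⊕ (Fin e ⊕ w)) k)
    {h1 : Matrix (Fin e) (Fin e) k} (h2 : Matrix (Fin e) (Fin e) k) (h3 : Matrix w w k)
    (hh : h1.det ≠ 0) : lC (y * dg h1 h2 h3) = lC y := by
  rw [lC, lC, b31_mul_dg, b11_mul_dg, Matrix.mul_inv_rev, Matrix.mul_assoc, ← Matrix.mul_assoc h1,
    Matrix.mul_nonsing_inv _ (isUnit_iff_ne_zero.2 hh), Matrix.one_mul]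

lemma lA_mul_dg (y : Matrix (Fin e ⊕ (Fin e ⊕ w)) (Fin e ⊕ (Fin e ⊕ w)) k)
    {h1 : Matrix (Fin e) (Fin e) k} (h2 : Matrix (Fin e) (Fin e) k) (h3 : Matrix w w k)
    (hh : h1.det ≠ 0) : lA (y * dg h1 h2 h3) = lA y := by
  rw [lA, lA, b21_mul_dg, b11_mul_dg, Matrix.mul_inv_rev, Matrix.mul_assoc, ← Matrix.mul_assoc h1,
    Matrix.mul_nonsing_inv _ (isUnit_iff_ne_zero.2 hh), Matrix.one_mul]

lemma lY_mul_dg (y : Matrix (Fin e ⊕ (Fin e ⊕ w)) (Fin e ⊕ (Fin e ⊕ w)) k)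
    {h1 : Matrix (Fin e) (Fin e) k} (h2 : Matrix (Fin e) (Fin e) k) (h3 : Matrix w w k)
    (hh : h1.det ≠ 0) : lY (y * dg h1 h2 h3) = lY y * h3 := by
  rw [lY, lY, lC_mul_dg y h2 h3 hh, b33_mul_dg, b13_mul_dg, Matrix.sub_mul, Matrix.mul_assoc]

lemma lB_mul_dg (y : Matrix (Fin e ⊕ (Fin e ⊕ w)) (Fin e ⊕ (Fin e ⊕ w)) k)
    {h1 h2 : Matrix (Fin e) (Fin e) k} (h3 : Matrix w w k)
    (hh : h2 * h1ᵀ = 1) : lB (y * dg h1 h2 h3) = lB y := by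
  rw [lB, lB, b12_mul_dg, b11_mul_dg, Matrix.transpose_mul, Matrix.mul_assoc,
    ← Matrix.mul_assoc h2, hh, Matrix.one_mul]

lemma lD_mul_dg (y : Matrix (Fin e ⊕ (Fin e ⊕ w)) (Fin e ⊕ (Fin e ⊕ w)) k)
    {h1 h2 : Matrix (Fin e) (Fin e) k} (h3 : Matrix w w k) (hd : h1.det ≠ 0)
    (hh : h2 * h1ᵀ = 1) : lD (y * dg h1 h2 h3) = lD y := by
  rw [lD, lD, lC_mul_dg y h2 h3 hd, b32_mul_dg, b12_mul_dg, b11_mul_dg, Matrix.transpose_mul,
    ← Matrix.mul_assoc (lC y), ← Matrix.sub_mul, Matrix.mul_assoc, ← Matrix.mul_assoc h2, hh,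
    Matrix.one_mul]

lemma dg_mul_dg (a1 a2 c1 c2 : Matrix (Fin e) (Fin e) k) (a3 c3 : Matrix w w k) :
    dg a1 a2 a3 * dg c1 c2 c3 = dg (a1 * c1) (a2 * c2) (a3 * c3) := by
  rw [mul_dg]
  have h1 : b11 (dg a1 a2 a3) = a1 := rfl
  have h2 : b12 (dg a1 a2 a3) = 0 := rfl
  have h3 : b13 (dg a1 a2 a3) = 0 := rfl
  have h4 : b21 (dg a1 a2 a3) = 0 := rfl
  have h5 : b22 (dg a1 a2 a3) = a2 := rfl
  have h6 : b23 (dg a1 a2 a3) = 0 := rfl
  have h7 : b31 (dg a1 a2 a3) = 0 := rfl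
  have h8 : b32 (dg a1 a2 a3) = 0 := rfl
  have h9 : b33 (dg a1 a2 a3) = a3 := rfl
  rw [h1, h2, h3, h4, h5, h6, h7, h8, h9]
  simp only [Matrix.zero_mul]
  rfl

/-- relations of a block diagonal isometry -/
lemma dg_iso {ε : k} {Jw : Matrix w w k} {h1 h2 : Matrix (Fin e) (Fin e) k} {h3 : Matrix w w k}
    (h : (dg h1 h2 h3)ᵀ * LJ (Fin e) ε Jw * dg h1 h2 h3 = LJ (Fin e) ε Jw) :
    h1ᵀ * h2 = 1 ∧ h3ᵀ * Jw * h3 = Jw := by
  rw [dg, mk3_transpose, LJ, mk3_mul, mk3_mul] at h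
  have h' := mk3_inj h
  refine ⟨?_, ?_⟩
  · have := h'.1.2.1
    simp only [Matrix.transpose_zero, Matrix.zero_mul, Matrix.mul_zero, add_zero, zero_add,
      Matrix.mul_one] at this
    exact this
  · have := h'.2.2.2.2
    simp only [Matrix.transpose_zero, Matrix.zero_mul, Matrix.mul_zero, add_zero, zero_add,
      Matrix.mul_one] at this
    exact this

end Blk

section Form

variable {k : Type u} [Field k] [CharZero k] {e : ℕ} {w : Type} [Fintype w] [DecidableEq w]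
  {ε : k} {Jw : Matrix w w k}

lemma form_tr (hJ : IsForm ε Jw) (C : Matrix w (Fin e) k) :
    (Cᵀ * Jw * C)ᵀ = ε • (Cᵀ * Jw * C) := by
  rw [Matrix.transpose_mul, Matrix.transpose_mul, Matrix.transpose_transpose, hJ.symm,
    Matrix.smul_mul, Matrix.mul_smul, Matrix.mul_assoc]

/-- `K` is `(-ε)`-symmetric -/
lemma K_tr (hJ : IsForm ε Jw) (hε : ε * ε = 1) {A : Matrix (Fin e) (Fin e) k}
    {C : Matrix w (Fin e) k} (h : A + ε • Aᵀ + Cᵀ * Jw * C = 0) :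
    (A + (2⁻¹ : k) • (Cᵀ * Jw * C))ᵀ = -(ε • (A + (2⁻¹ : k) • (Cᵀ * Jw * C))) := by
  have h2 : ε • A + Aᵀ + ε • (Cᵀ * Jw * C) = 0 := by
    have := congrArg (fun M => ε • M) h
    simp only [smul_add, smul_smul, hε, one_smul, smul_zero] at this
    exact this
  have h3 : Aᵀ = -(ε • A) - ε • (Cᵀ * Jw * C) := by
    rw [← sub_eq_zero, ← h2]
    abel
  rw [Matrix.transpose_add, Matrix.transpose_smul, form_tr hJ, h3, smul_add, smul_smul, smul_smul]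
  ext i j
  simp only [Matrix.add_apply, Matrix.sub_apply, Matrix.neg_apply, Matrix.smul_apply, smul_eq_mul]
  ring

/-- `K'` is `(-ε)`-symmetric -/
lemma K_tr' (hJ : IsForm ε Jw) (hε : ε * ε = 1) {B : Matrix (Fin e) (Fin e) k}
    {D : Matrix w (Fin e) k} (h : B + ε • Bᵀ + ε • (Dᵀ * Jw * D) = 0) :
    (B + (2⁻¹ * ε : k) • (Dᵀ * Jw * D))ᵀ = -(ε • (B + (2⁻¹ * ε : k) • (Dᵀ * Jw * D))) := by
  have h2 : ε • B + Bᵀ + (Dᵀ * Jw * D) = 0 := by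
    have := congrArg (fun M => ε • M) h
    simp only [smul_add, smul_smul, hε, one_smul, smul_zero] at this
    exact this
  have h3 : Bᵀ = -(ε • B) - (Dᵀ * Jw * D) := by
    rw [← sub_eq_zero, ← h2]
    abel
  rw [Matrix.transpose_add, Matrix.transpose_smul, form_tr hJ, h3]
  ext i j
  simp only [Matrix.add_apply, Matrix.sub_apply, Matrix.neg_apply, Matrix.smul_apply, smul_eq_mul]
  have h4 : (2⁻¹ * ε) * (ε * (Dᵀ * Jw * D) i j) = 2⁻¹ * (Dᵀ * Jw * D) i j := by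
    linear_combination (2⁻¹ * (Dᵀ * Jw * D) i j) * hε
  have h5 : ε * ((2⁻¹ * ε) * (Dᵀ * Jw * D) i j) = 2⁻¹ * (Dᵀ * Jw * D) i j := by
    linear_combination (2⁻¹ * (Dᵀ * Jw * D) i j) * hε
  rw [h4, mul_add, h5]
  ring

lemma rel_of_K (hJ : IsForm ε Jw) (hε : ε * ε = 1) {K : Matrix (Fin e) (Fin e) k}
    (hK : Kᵀ = -(ε • K)) (C : Matrix w (Fin e) k) :
    (K - (2⁻¹ : k) • (Cᵀ * Jw * C)) + ε • (K - (2⁻¹ : k) • (Cᵀ * Jw * C))ᵀ + Cᵀ * Jw * C = 0 := by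
  rw [Matrix.transpose_sub, Matrix.transpose_smul, form_tr hJ, hK]
  ext i j
  simp only [Matrix.add_apply, Matrix.sub_apply, Matrix.neg_apply, Matrix.smul_apply, smul_eq_mul,
    Matrix.zero_apply]
  linear_combination (-K i j - 2⁻¹ * (Cᵀ * Jw * C) i j) * hε

lemma rel_of_K' (hJ : IsForm ε Jw) (hε : ε * ε = 1) {K : Matrix (Fin e) (Fin e) k}
    (hK : Kᵀ = -(ε • K)) (D : Matrix w (Fin e) k) :
    (K - (2⁻¹ * ε : k) • (Dᵀ * Jw * D)) + ε • (K - (2⁻¹ * ε : k) • (Dᵀ * Jw * D))ᵀ +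
      ε • (Dᵀ * Jw * D) = 0 := by
  rw [Matrix.transpose_sub, Matrix.transpose_smul, form_tr hJ, hK]
  ext i j
  simp only [Matrix.add_apply, Matrix.sub_apply, Matrix.neg_apply, Matrix.smul_apply, smul_eq_mul,
    Matrix.zero_apply]
  linear_combination (-K i j - 2⁻¹ * ε * (Dᵀ * Jw * D) i j) * hε

end Form

end Pool.Agent.Helper97.CG
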